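import Pool.Agent.Helper61.NLS.QFun
import Pool.Agent.Helper61.NLS.Loc

/-!
# MP_885ebb_an, Q1: the stability threshold of the odd waves is not in `(0,1)` for small periods

For every `M ≥ 0` and every sufficiently small period `L` there is an odd wave with frequency
`ω < -M` which is not a local minimizer of the energy at fixed mass in `X ∩ Y`.  So for small `L`
no `Ω_*` in `(-M, 1)`, in particular none in `(0,1)`, has the property asked for in part (b).

The odd waves are parametrised by `a = max φ²` and `Ω = 1 - ω > 1`; with `φ = √a sin θ` one has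
`θ' = √(Ω K(a, sin² θ) - 1)`, where `K(a,z)` is the average of `1/(1-at)` over `[z,1]`.  For large
`Ω` the mass per unit length is close to `q(a) = ∫ ℓ K^(-1/2) / ∫ K^(-1/2)` with
`ℓ = -log (1 - a sin² θ)`, and `q` is not monotone: it exceeds its limit `2 - 2 log 2` at some
point.  So along the family with fixed small `L`, on which `ω` increases with `a`, the mass takes a
smaller value at some later frequency.  On the other hand, if all these waves were local minimizers,
comparison with the rescaled waves `√r φ` would give a local supporting line for `H + ω Q` as a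
function of `ω` at each of them, and the mass would be nondecreasing.
-/

set_option autoImplicit false

open MeasureTheory Set

namespace Pool.Agent.Results.MP_885ebb_an.OddSmallPeriod

/-- `u` is an element of `H¹_per` with period `L` (its continuous representative) and `g` is its
weak derivative. -/
structure H1per (L : ℝ) (u g : ℝ → ℂ) : Prop where
  per_u : Function.Periodic u L
  per_g : Function.Periodic g L
  sq_int : MemLp g 2 (volume.restrict (Ioc 0 L))
  primitive : ∀ x y : ℝ, u y - u x = ∫ t in x..y, g t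

/-- the energy -/
noncomputable def H (L : ℝ) (u g : ℝ → ℂ) : ℝ :=
  ∫ x in (0 : ℝ)..L, (‖g x‖ ^ 2 + ‖u x‖ ^ 2 + Real.log (1 - ‖u x‖ ^ 2))

/-- the mass -/
noncomputable def Q (L : ℝ) (u : ℝ → ℂ) : ℝ := -∫ x in (0 : ℝ)..L, Real.log (1 - ‖u x‖ ^ 2)

/-- the square of the `H¹` distance between `(u, g)` and `(v, w)` -/
noncomputable def distSq (L : ℝ) (u g v w : ℝ → ℂ) : ℝ :=
  ∫ x in (0 : ℝ)..L, (‖g x - w x‖ ^ 2 + ‖u x - v x‖ ^ 2)

/-- `u ∈ X ∩ Y`, with weak derivative `g` -/
structure Admissible (L : ℝ) (u g : ℝ → ℂ) : Prop where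
  h1per : H1per L u g
  small : ∀ x, ‖u x‖ < 1
  odd : ∀ x, u (L / 2 - x) = -u (x - L / 2)

/-- `φ` is an odd wave of period `L` and frequency `ω`: a smooth real solution of the profile
equation with `|φ| < 1`, odd, not zero, whose minimal period is `L`. -/
structure IsOddWave (L ω : ℝ) (φ : ℝ → ℝ) : Prop where
  smooth : ContDiff ℝ (⊤ : ℕ∞) φ
  small : ∀ x, |φ x| < 1
  ode : ∀ x, -(1 - φ x ^ 2) * deriv (deriv φ) x + ω * φ x - φ x ^ 3 = 0
  odd : ∀ x, φ (-x) = -φ x
  nonzero : ∃ x, φ x ≠ 0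
  periodic : Function.Periodic φ L
  minimal : ∀ T, 0 < T → T < L → ¬ Function.Periodic φ T

/-- `φ` is a local minimizer of `H` at fixed `Q` in `X ∩ Y`, and the only other minimizers nearby
are the `exp (iθ) φ`. -/
def EnergeticallyStable (L : ℝ) (φ : ℝ → ℝ) : Prop :=
  ∃ δ : ℝ, 0 < δ ∧ ∀ u g : ℝ → ℂ, Admissible L u g →
    Q L u = Q L (fun x => (φ x : ℂ)) →
    distSq L u g (fun x => (φ x : ℂ)) (fun x => ((deriv φ x : ℝ) : ℂ)) < δ ^ 2 →
    H L (fun x => (φ x : ℂ)) (fun x => ((deriv φ x : ℝ) : ℂ)) ≤ H L u g ∧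
    (H L u g = H L (fun x => (φ x : ℂ)) (fun x => ((deriv φ x : ℝ) : ℂ)) →
      ∃ θ : ℝ, ∀ x, u x = Complex.exp (θ * Complex.I) * φ x)

/-- `φ` is not even a local minimizer: arbitrarily close to `φ` there are functions in `X ∩ Y` with
the same mass and strictly smaller energy. -/
def NotLocalMin (L : ℝ) (φ : ℝ → ℝ) : Prop :=
  ∀ δ : ℝ, 0 < δ → ∃ u g : ℝ → ℂ, Admissible L u g ∧
    Q L u = Q L (fun x => (φ x : ℂ)) ∧
    distSq L u g (fun x => (φ x : ℂ)) (fun x => ((deriv φ x : ℝ) : ℂ)) < δ ^ 2 ∧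
    H L u g < H L (fun x => (φ x : ℂ)) (fun x => ((deriv φ x : ℝ) : ℂ))

/-- property (b) of the question for the threshold `Ωs` -/
def OddThreshold (L Ωs : ℝ) : Prop :=
  (∀ ω φ, ω < Ωs → IsOddWave L ω φ → EnergeticallyStable L φ) ∧
  (∀ ω φ, Ωs < ω → ω < 1 → IsOddWave L ω φ → ¬ EnergeticallyStable L φ)

open Pool.Agent.Helper61.NLS

theorem wave_isOdd {L : ℝ} {p : PP} (hT : Tp p = L) : IsOddWave L (1 - p.1.2) (ph p) where
  smooth := ph_contDiff p
  small := ph_abs_lt p
  ode := by
    intro x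
    have e1 : deriv (ph p) = ps p := by
      funext y; exact (ph_deriv p y).deriv
    rw [e1, (ps_deriv p x).deriv]
    have h := ph_sq_lt p x
    have hne : 1 - ph p x ^ 2 ≠ 0 := by linarith
    field_simp
    ring
  odd := ph_odd p
  nonzero := by
    refine ⟨XX WW p (Real.pi / 2), ?_⟩
    have e : Th p (XX WW p (Real.pi / 2)) = Real.pi / 2 := WW_good.TH_left p _
    unfold ph
    rw [e, Real.sin_pi_div_two, mul_one]
    exact (sqrt_a_pos p).ne'
  periodic := by rw [← hT]; exact ph_per p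
  minimal := by
    intro T h0 h1
    rw [← hT] at h1
    exact ph_minper p h0 h1

theorem scaled_admissible {L : ℝ} {p : PP} (hT : Tp p = L) {r : ℝ} (h0 : 0 ≤ r)
    (h1 : r * p.1.1 < 1) : Admissible L (fun x => ((√r * ph p x : ℝ) : ℂ))
      (fun x => ((√r * ps p x : ℝ) : ℂ)) where
  h1per := by
    refine ⟨?_, ?_, ?_, ?_⟩
    · intro x
      have := ph_per p x
      rw [hT] at this
      simp only [this]
    · intro x
      have := ps_per p x
      rw [hT] at this
      simp only [this]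
    · have hc : Continuous (fun x => ((√r * ps p x : ℝ) : ℂ)) := by
        have := ps_cont1 p
        fun_prop
      obtain ⟨C, hC⟩ := (isCompact_Icc (a := (0 : ℝ)) (b := L)).exists_bound_of_continuousOn
        hc.continuousOn
      apply MemLp.of_bound hc.aestronglyMeasurable C
      filter_upwards [ae_restrict_mem measurableSet_Ioc] with x hx
      exact hC x (Ioc_subset_Icc_self hx)
    · intro x y
      have hc : Continuous (fun x => √r * ps p x) := by
        have := ps_cont1 p
        fun_prop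
      have h2 : ∫ t in x..y, √r * ps p t = √r * ph p y - √r * ph p x :=
        intervalIntegral.integral_eq_sub_of_hasDerivAt
          (fun t _ => (ph_deriv p t).const_mul (√r)) (hc.intervalIntegrable _ _)
      rw [intervalIntegral.integral_ofReal, h2]
      push_cast
      ring
  small := by
    intro x
    rw [Complex.norm_real, Real.norm_eq_abs, ← sq_lt_one_iff_abs_lt_one, mul_pow,
      Real.sq_sqrt h0]
    exact r_ph_lt h0 h1 x
  odd := by
    intro x
    have e : L / 2 - x = -(x - L / 2) := by ring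
    rw [e, ph_odd]
    push_cast
    ring

theorem H_scaled {L : ℝ} {p : PP} {r : ℝ} (h0 : 0 ≤ r) :
    H L (fun x => ((√r * ph p x : ℝ) : ℂ)) (fun x => ((√r * ps p x : ℝ) : ℂ)) = Hr L p r := by
  unfold H Hr
  apply intervalIntegral.integral_congr
  intro x _
  simp only [Complex.norm_real, Real.norm_eq_abs, sq_abs, mul_pow, Real.sq_sqrt h0]

theorem Q_scaled {L : ℝ} {p : PP} {r : ℝ} (h0 : 0 ≤ r) :
    Q L (fun x => ((√r * ph p x : ℝ) : ℂ)) = Qr L p r := by
  unfold Q Qr
  rw [intervalIntegral.integral_neg]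
  congr 1
  apply intervalIntegral.integral_congr
  intro x _
  simp only [Complex.norm_real, Real.norm_eq_abs, sq_abs, mul_pow, Real.sq_sqrt h0]

theorem dist_scaled {L : ℝ} {p₀ p : PP} {r : ℝ} :
    distSq L (fun x => ((√r * ph p x : ℝ) : ℂ)) (fun x => ((√r * ps p x : ℝ) : ℂ))
      (fun x => (ph p₀ x : ℂ)) (fun x => ((deriv (ph p₀) x : ℝ) : ℂ)) = Fr L p₀ p r := by
  unfold distSq Fr
  apply intervalIntegral.integral_congr
  intro x _
  simp only
  rw [(ph_deriv p₀ x).deriv, ← Complex.ofReal_sub, ← Complex.ofReal_sub, Complex.norm_real,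
    Complex.norm_real, Real.norm_eq_abs, Real.norm_eq_abs, sq_abs, sq_abs]

theorem H_wave {L : ℝ} {p : PP} :
    H L (fun x => (ph p x : ℂ)) (fun x => ((deriv (ph p) x : ℝ) : ℂ)) = Hr L p 1 := by
  have h := H_scaled (L := L) (p := p) zero_le_one
  simp only [Real.sqrt_one, one_mul] at h
  have e1 : deriv (ph p) = ps p := by
    funext y; exact (ph_deriv p y).deriv
  rw [e1]
  exact h

theorem Q_wave {L : ℝ} {p : PP} : Q L (fun x => (ph p x : ℂ)) = Qr L p 1 := by
  have h := Q_scaled (L := L) (p := p) zero_le_one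
  simp only [Real.sqrt_one, one_mul] at h
  exact h

/-- For every `M ≥ 0` there is `L₀ > 0` such that for all `L ∈ (0, L₀)` there is an odd wave with
`ω < -M` that is not a local minimizer, and no `Ωs ∈ (-M, 1)` is a threshold as in (b). -/
theorem result (M : ℝ) (hM : 0 ≤ M) : ∃ L₀ : ℝ, 0 < L₀ ∧ ∀ L : ℝ, 0 < L → L < L₀ →
    (∃ (ω : ℝ) (φ : ℝ → ℝ), ω < -M ∧ IsOddWave L ω φ ∧ NotLocalMin L φ) ∧
    ∀ Ωs : ℝ, -M < Ωs → Ωs < 1 → ¬ OddThreshold L Ωs := by
  obtain ⟨a₁, a₂, m₁, m₂, h0, h12, h1, hm2, hm, hq1, hq2⟩ := exists_two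
  -- choice of the lower bound for `Ω`
  obtain ⟨Ωs, hΩ1, hΩM, hΩm⟩ : ∃ Ωs : ℝ, 1 < Ωs ∧ 1 + M ≤ Ωs ∧ m₂ < (1 - Ωs⁻¹) * m₁ := by
    have hm1 : 0 < m₁ := hm2.trans hm
    refine ⟨max (2 + M) (2 * m₁ / (m₁ - m₂)), ?_, ?_, ?_⟩
    · exact lt_of_lt_of_le (by linarith) (le_max_left _ _)
    · exact le_trans (by linarith) (le_max_left _ _)
    · have h2 : 0 < 2 * m₁ / (m₁ - m₂) := div_pos (by linarith) (by linarith)
      have h3 := inv_anti₀ h2 (le_max_right (2 + M) (2 * m₁ / (m₁ - m₂)))
      have h4 : (2 * m₁ / (m₁ - m₂))⁻¹ * m₁ = (m₁ - m₂) / 2 := by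
        rw [inv_div]
        field_simp
      have h5 := mul_le_mul_of_nonneg_right h3 hm1.le
      rw [h4] at h5
      linarith
  refine ⟨Tp ⟨(a₂, Ωs), h0.trans h12, h1, hΩ1⟩, Tp_pos _, ?_⟩
  intro L hL hLT
  obtain ⟨pf, hpf, hprop, hanti⟩ := exists_family h0 h12 h1 hΩ1 hL hLT
  have hT : ∀ a, Tp (pf a) = L := fun a => (hprop a).2.2
  -- a wave that is not a local minimizer
  have key : ∃ a : Icc a₁ a₂, NotLocalMin L (ph (pf a)) := by
    by_contra hcon
    push Not at hcon
    have hloc : ∀ a, ∀ᶠ b in nhds a, DD L (pf a) +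
        ((1 - (pf b).1.2) - (1 - (pf a).1.2)) * Qr L (pf a) 1 ≤ DD L (pf b) := by
      intro a
      apply local_step hpf (fun a => (hprop a).1) hT h1 a
      have h := hcon a
      unfold NotLocalMin at h
      push Not at h
      obtain ⟨δ, hδ, h⟩ := h
      refine ⟨δ ^ 2, by positivity, ?_⟩
      intro b r hr0 hr1 hQ hF
      have h2 := h _ _ (scaled_admissible (hT b) hr0 hr1)
        (by rw [Q_scaled hr0, Q_wave]; exact hQ) (by rw [dist_scaled]; exact hF)
      rw [H_scaled hr0, H_wave] at h2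
      exact h2
    have hmono := conv_lemma h12.le (D := fun a => DD L (pf a)) (w := fun a => 1 - (pf a).1.2)
      (Q := fun a => Qr L (pf a) 1) ((DD_cont L).comp hpf) (by fun_prop)
      (fun a b hab => by
        have := hanti a b hab
        simp only
        linarith) hloc
    have hcmp := Q_compare (p₁ := pf ⟨a₁, le_rfl, h12.le⟩) (p₂ := pf ⟨a₂, h12.le, le_rfl⟩)
      hΩ1 (hm2.trans hm) hm2 hΩm
      (by rw [(hprop _).1]; exact hq1) (by rw [(hprop _).1]; exact hq2)
      (hprop _).2.1 (hprop _).2.1 (hT _) (hT _)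
    have e : ∀ a, Qr L (pf a) 1 = Qp (pf a) := by
      intro a
      unfold Qr Qp
      rw [hT a]
      simp only [one_mul]
    simp only [e] at hmono
    linarith
  obtain ⟨a, ha⟩ := key
  have hω : 1 - (pf a).1.2 < -M := by
    have := (hprop a).2.1
    linarith
  refine ⟨⟨1 - (pf a).1.2, ph (pf a), hω, wave_isOdd (hT a), ha⟩, ?_⟩
  intro Ω' hΩ' _ hthr
  obtain ⟨δ, hδ, hst⟩ := hthr.1 (1 - (pf a).1.2) (ph (pf a)) (by linarith) (wave_isOdd (hT a))
  obtain ⟨u, g, hu, hQ, hd, hH⟩ := ha δ hδ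
  exact absurd (hst u g hu hQ hd).1 (not_le.2 hH)

end Pool.Agent.Results.MP_885ebb_an.OddSmallPeriod
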